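import Mathlib
import Pool.Agent.Q290.FLD.Upper

set_option autoImplicit false

namespace Pool.Agent.Results.MP_c6110c_co.LogLowerBound

open Pool.Agent.Q290.FLD

/-- For all `t ≥ 2` and `m ≥ 1` the fractional local `t`-dimension of the `m`-element chain is at
least `log_t m`. -/
theorem result (t : ℕ) (ht : 2 ≤ t) (m : ℕ) (hm : 1 ≤ m) :
    Real.logb t m ≤ fldim t (Fin m) :=
  logb_le_fldim ht hm

end Pool.Agent.Results.MP_c6110c_co.LogLowerBound
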